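import Pool.Agent.W181.RT.Props

/-! Reiner–Tudose project: alternants and the functions `h_m · Δ`. -/

set_option autoImplicit false

namespace Pool.Agent.W696.RT

open Polynomial Pool.Agent.W181.RT

/-- The variable `y_j` is a root of `∏ (Y - y_l)`. -/
theorem root (R : Type) [CommRing R] (i : ℕ) (j : Fin i) :
    (MvPolynomial.X j : MvPolynomial (Fin i) R) ^ i +
      ∑ c : Fin i, ((-1) ^ (c.val + 1) * MvPolynomial.esymm (Fin i) R (c.val + 1)) *
        (MvPolynomial.X j) ^ (i - (c.val + 1)) = 0 := by
  have h1 := Multiset.prod_X_sub_X_eq_sum_esymm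
    ((Finset.univ : Finset (Fin i)).val.map (MvPolynomial.X : Fin i → MvPolynomial (Fin i) R))
  rw [← MvPolynomial.esymm_eq_multiset_esymm] at h1
  have hc : Multiset.card ((Finset.univ : Finset (Fin i)).val.map
      (MvPolynomial.X : Fin i → MvPolynomial (Fin i) R)) = i := by simp
  rw [hc] at h1
  have h2 := congrArg (Polynomial.eval (MvPolynomial.X j : MvPolynomial (Fin i) R)) h1
  have h3 : Polynomial.eval (MvPolynomial.X j : MvPolynomial (Fin i) R)
      ((((Finset.univ : Finset (Fin i)).val.map
        (MvPolynomial.X : Fin i → MvPolynomial (Fin i) R)).map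
          fun t => Polynomial.X - Polynomial.C t).prod) = 0 := by
    rw [Polynomial.eval_multiset_prod]
    apply Multiset.prod_eq_zero
    rw [Multiset.mem_map]
    refine ⟨Polynomial.X - Polynomial.C (MvPolynomial.X j), ?_, by simp⟩
    rw [Multiset.mem_map]
    exact ⟨MvPolynomial.X j, Multiset.mem_map.2 ⟨j, Finset.mem_univ j, rfl⟩, rfl⟩
  rw [h3, Polynomial.eval_finsetSum, Finset.sum_range_succ'] at h2
  simp only [Polynomial.eval_mul, Polynomial.eval_pow, Polynomial.eval_neg, Polynomial.eval_one,
    Polynomial.eval_C, Polynomial.eval_X, pow_zero, MvPolynomial.esymm_zero, one_mul,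
    Nat.sub_zero] at h2
  rw [Finset.sum_range] at h2
  refine Eq.trans ?_ h2.symm
  refine (add_comm _ _).trans (congrArg₂ (· + ·) ?_ rfl)
  exact Finset.sum_congr rfl fun c _ => mul_assoc _ _ _

theorem ey_X (R : Type) [CommRing R] (i : ℕ) (c : Fin i) :
    ey R i (MvPolynomial.X c) = MvPolynomial.esymm (Fin i) R (c.val + 1) := by
  unfold ey
  rw [MvPolynomial.aeval_X]

theorem eval_Dhat (R : Type) [CommRing R] (i : ℕ) (j : Fin i) :
    Polynomial.eval₂ (ey R i : MvPolynomial (Fin i) R →+* MvPolynomial (Fin i) R)
      (MvPolynomial.X j) (Dhat R i) = 0 := by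
  unfold Dhat
  rw [Polynomial.eval₂_add, Polynomial.eval₂_pow, Polynomial.eval₂_X, Polynomial.eval₂_finsetSum]
  refine Eq.trans (congrArg₂ (· + ·) rfl ?_) (root R i j)
  refine Finset.sum_congr rfl fun c _ => ?_
  rw [Polynomial.eval₂_mul, Polynomial.eval₂_C, Polynomial.eval₂_pow, Polynomial.eval₂_X]
  refine congrArg₂ (· * ·) ?_ rfl
  show ey R i _ = _
  rw [map_mul, map_pow, map_neg, map_one, ey_X]

theorem Dhat_monic (R : Type) [CommRing R] (i : ℕ) : (Dhat R i).Monic ∧
    (Nontrivial R → (Dhat R i).degree = i) := by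
  have hlt : (∑ c : Fin i, Polynomial.C ((-1 : MvPolynomial (Fin i) R) ^ (c.val + 1) *
      MvPolynomial.X c) * (Polynomial.X : Polynomial (MvPolynomial (Fin i) R)) ^
        (i - (c.val + 1))).degree < (i : WithBot ℕ) := by
    refine lt_of_le_of_lt (Polynomial.degree_sum_le _ _) ?_
    refine (Finset.sup_lt_iff (WithBot.bot_lt_coe i)).2 ?_
    intro c _
    refine lt_of_le_of_lt (Polynomial.degree_C_mul_X_pow_le _ _) ?_
    have := c.2
    exact Nat.cast_lt.2 (by omega)
  refine ⟨Polynomial.monic_X_pow_add hlt, fun _ => ?_⟩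
  unfold Dhat
  rw [Polynomial.degree_add_eq_left_of_degree_lt]
  · rw [Polynomial.degree_X_pow]
  · rw [Polynomial.degree_X_pow]
    exact hlt

theorem pow_eq (R : Type) [CommRing R] [Nontrivial R] (i : ℕ) (j : Fin i) (a : ℕ) :
    (MvPolynomial.X j : MvPolynomial (Fin i) R) ^ a =
      ∑ c : Fin i, ey R i ((((Polynomial.X : Polynomial (MvPolynomial (Fin i) R)) ^ a) %ₘ
        Dhat R i).coeff (c : ℕ)) * (MvPolynomial.X j) ^ (c : ℕ) := by
  obtain ⟨hm, hd⟩ := Dhat_monic R i
  set r := ((Polynomial.X : Polynomial (MvPolynomial (Fin i) R)) ^ a) %ₘ Dhat R i with hr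
  have h1 := Polynomial.modByMonic_add_div
    ((Polynomial.X : Polynomial (MvPolynomial (Fin i) R)) ^ a) (Dhat R i)
  have h2 := congrArg (Polynomial.eval₂
    (ey R i : MvPolynomial (Fin i) R →+* MvPolynomial (Fin i) R) (MvPolynomial.X j)) h1
  rw [Polynomial.eval₂_add, Polynomial.eval₂_mul, eval_Dhat, zero_mul, add_zero,
    Polynomial.eval₂_pow, Polynomial.eval₂_X] at h2
  rw [← h2, ← hr]
  have hdeg : r.degree < (i : WithBot ℕ) := by
    have := Polynomial.degree_modByMonic_lt
      ((Polynomial.X : Polynomial (MvPolynomial (Fin i) R)) ^ a) hm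
    rw [hd inferInstance] at this
    exact this
  by_cases hr0 : r = 0
  · rw [hr0]
    simp
  · have hnd : r.natDegree < i := (Polynomial.natDegree_lt_iff_degree_lt hr0).2 hdeg
    rw [Polynomial.eval₂_eq_sum_range' _ hnd, Finset.sum_range]
    rfl

theorem t_ALT : S_ALT := by
  intro R _ i α
  rcases subsingleton_or_nontrivial R with hR | hR
  · exact Subsingleton.elim _ _
  · have h1 : (Matrix.of fun (l j : Fin i) =>
        (MvPolynomial.X j : MvPolynomial (Fin i) R) ^ (α l)) =
      (Matrix.of fun (l c : Fin i) =>
        ey R i ((((Polynomial.X : Polynomial (MvPolynomial (Fin i) R)) ^ (α l)) %ₘ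
          Dhat R i).coeff (c : ℕ))) *
      (Matrix.of fun (j c : Fin i) =>
        (MvPolynomial.X j : MvPolynomial (Fin i) R) ^ (c : ℕ)).transpose := by
      ext1 l j
      rw [Matrix.mul_apply, Matrix.of_apply, pow_eq R i j (α l)]
      rfl
    have h2 : Matrix.det (Matrix.of fun (l c : Fin i) =>
        ey R i ((((Polynomial.X : Polynomial (MvPolynomial (Fin i) R)) ^ (α l)) %ₘ
          Dhat R i).coeff (c : ℕ))) = ey R i (gal R i α) := by
      unfold gal
      rw [AlgHom.map_det]
      exact congrArg Matrix.det (by ext1 l c; rfl)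
    rw [h1, Matrix.det_mul, Matrix.det_transpose, h2]
    rfl

/-- recurrence of the coefficients of `1 / Dp` -/
theorem inv_rec (R : Type) [CommRing R] (i n : ℕ) :
    PowerSeries.coeff (n + 1) (PowerSeries.invOfUnit (Dp R i) 1) +
      ∑ c : Fin i, ((-1 : MvPolynomial (Fin i) R) ^ (c.val + 1) * MvPolynomial.X c) *
        (if c.val + 1 ≤ n + 1 then
          PowerSeries.coeff (n + 1 - (c.val + 1)) (PowerSeries.invOfUnit (Dp R i) 1) else 0) = 0 := by
  have h0 : PowerSeries.constantCoeff (Dp R i) = ((1 : (MvPolynomial (Fin i) R)ˣ) :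
      MvPolynomial (Fin i) R) := by
    unfold Dp
    simp
  have h1 := PowerSeries.mul_invOfUnit (Dp R i) 1 h0
  have h2 := congrArg (PowerSeries.coeff (n + 1)) h1
  rw [PowerSeries.coeff_one, if_neg (Nat.succ_ne_zero n)] at h2
  conv_lhs at h2 => enter [2, 1]; rw [Dp]
  rw [add_mul, one_mul, map_add, Finset.sum_mul, map_sum] at h2
  refine Eq.trans ?_ h2
  refine congrArg₂ (· + ·) rfl ?_
  refine Finset.sum_congr rfl fun c _ => ?_
  rw [mul_assoc (PowerSeries.C _), PowerSeries.coeff_C_mul, PowerSeries.coeff_X_pow_mul']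

theorem inv_zero (R : Type) [CommRing R] (i : ℕ) :
    PowerSeries.coeff 0 (PowerSeries.invOfUnit (Dp R i) 1) = 1 := by
  rw [PowerSeries.coeff_zero_eq_constantCoeff_apply, PowerSeries.constantCoeff_invOfUnit]
  simp

theorem t_HD : S_HD := by
  intro R _ i hi
  set A : Matrix (Fin i) (Fin i) (MvPolynomial (Fin i) R) :=
    Matrix.of fun (j c : Fin i) => (MvPolynomial.X j : MvPolynomial (Fin i) R) ^ (c : ℕ) with hA
  set last : Fin i := ⟨i - 1, by omega⟩ with hlast
  refine ⟨fun j => A.adjugate last j, fun m => ?_⟩
  have hH : ∀ m : ℕ, ∑ j : Fin i, (MvPolynomial.X j : MvPolynomial (Fin i) R) ^ m *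
      A.adjugate last j = (A.updateCol last (fun j => (MvPolynomial.X j) ^ m)).det := by
    intro m
    rw [← Matrix.cramer_apply, Matrix.cramer_eq_adjugate_mulVec, Matrix.mulVec, dotProduct]
    exact Finset.sum_congr rfl fun j _ => mul_comm _ _
  induction m using Nat.strong_induction_on with
  | _ m ih =>
    by_cases h1 : m + 1 < i
    · rw [if_pos h1, hH]
      have hne : (⟨m, by omega⟩ : Fin i) ≠ last := by
        intro h
        have := congrArg Fin.val h
        simp only [hlast] at this
        omega
      refine Matrix.det_zero_of_column_eq hne fun j => ?_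
      rw [Matrix.updateCol_ne hne, Matrix.updateCol_self]
      rfl
    · rw [if_neg h1]
      by_cases h2 : m + 1 = i
      · have h3 : m + 1 - i = 0 := by omega
        rw [h3, inv_zero, map_one, one_mul, hH]
        have h4 : A.updateCol last (fun j => (MvPolynomial.X j) ^ m) = A := by
          ext1 j c
          by_cases hc : c = last
          · rw [hc, Matrix.updateCol_self]
            show _ = (MvPolynomial.X j : MvPolynomial (Fin i) R) ^ (i - 1)
            congr 1
            omega
          · rw [Matrix.updateCol_ne hc]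
        rw [h4]
        rfl
      · -- the recurrence
        obtain ⟨n, rfl⟩ : ∃ n, m = n + i := ⟨m - i, by omega⟩
        have h3 : n + i + 1 - i = n + 1 := by omega
        rw [h3]
        have h4 : ∑ j : Fin i, (MvPolynomial.X j : MvPolynomial (Fin i) R) ^ (n + i) *
            A.adjugate last j = - ∑ c : Fin i, ((-1) ^ (c.val + 1) *
              MvPolynomial.esymm (Fin i) R (c.val + 1)) *
              ∑ j : Fin i, (MvPolynomial.X j : MvPolynomial (Fin i) R) ^ (n + i - (c.val + 1)) *
                A.adjugate last j := by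
          simp only [Finset.mul_sum]
          rw [Finset.sum_comm, ← Finset.sum_neg_distrib]
          refine Finset.sum_congr rfl fun j _ => ?_
          have h5 := root R i j
          have h6 : ∀ c : Fin i, (MvPolynomial.X j : MvPolynomial (Fin i) R) ^
              (n + i - (c.val + 1)) = (MvPolynomial.X j) ^ n *
                (MvPolynomial.X j) ^ (i - (c.val + 1)) := by
            intro c
            rw [← pow_add]
            congr 1
            have := c.2
            omega
          have h7 : ∑ c : Fin i, ((-1) ^ (c.val + 1) *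
              MvPolynomial.esymm (Fin i) R (c.val + 1)) *
              ((MvPolynomial.X j : MvPolynomial (Fin i) R) ^ (n + i - (c.val + 1)) *
                A.adjugate last j) = (MvPolynomial.X j ^ n * A.adjugate last j) *
              ∑ c : Fin i, ((-1) ^ (c.val + 1) *
                MvPolynomial.esymm (Fin i) R (c.val + 1)) *
                (MvPolynomial.X j) ^ (i - (c.val + 1)) := by
            rw [Finset.mul_sum]
            refine Finset.sum_congr rfl fun c _ => ?_
            rw [h6 c]
            ring
          rw [h7, pow_add]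
          linear_combination (MvPolynomial.X j ^ n * A.adjugate last j) * h5
        rw [h4]
        have h8 := congrArg (ey R i) (inv_rec R i n)
        rw [map_add, map_sum, map_zero] at h8
        have h9 : ∀ c : Fin i, ((-1) ^ (c.val + 1) *
              MvPolynomial.esymm (Fin i) R (c.val + 1)) *
              ∑ j : Fin i, (MvPolynomial.X j : MvPolynomial (Fin i) R) ^ (n + i - (c.val + 1)) *
                A.adjugate last j =
            ey R i (((-1 : MvPolynomial (Fin i) R) ^ (c.val + 1) * MvPolynomial.X c) *
        (if c.val + 1 ≤ n + 1 then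
          PowerSeries.coeff (n + 1 - (c.val + 1)) (PowerSeries.invOfUnit (Dp R i) 1) else 0)) *
              Vd R i := by
          intro c
          have hc := c.2
          rw [ih (n + i - (c.val + 1)) (by omega), map_mul, map_mul, map_pow, map_neg, map_one,
            ey_X]
          by_cases h10 : c.val + 1 ≤ n + 1
          · rw [if_neg (by omega), if_pos h10]
            have : n + i - (c.val + 1) + 1 - i = n + 1 - (c.val + 1) := by omega
            rw [this]
            ring
          · rw [if_pos (by omega), if_neg h10]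
            simp
        rw [Finset.sum_congr rfl fun c _ => h9 c, ← Finset.sum_mul]
        linear_combination (-(Vd R i)) * h8

end Pool.Agent.W696.RT
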